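import Mathlib

set_option autoImplicit false

namespace Pool.Agent.Results.MP_c4a8f9_gt.Power

open Filter Topology

/-- `C_p(X, G)` as a subgroup of the product `G^X` -/
def Cp (X G : Type) [TopologicalSpace X] [Group G] [TopologicalSpace G] [IsTopologicalGroup G] :
    Subgroup (X → G) where
  carrier := {f | Continuous f}
  mul_mem' := Continuous.mul
  one_mem' := continuous_one
  inv_mem' := Continuous.inv

/-- selectively sequentially pseudocompact -/
def SelSeq (X : Type) [TopologicalSpace X] : Prop :=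
  ∀ U : ℕ → Set X, (∀ n, IsOpen (U n) ∧ (U n).Nonempty) → ∃ x : ℕ → X, (∀ n, x n ∈ U n) ∧
    ∃ φ : ℕ → ℕ, StrictMono φ ∧ ∃ a, Tendsto (x ∘ φ) atTop (𝓝 a)

/-- selectively pseudocompact -/
def Sel (X : Type) [TopologicalSpace X] : Prop :=
  ∀ U : ℕ → Set X, (∀ n, IsOpen (U n) ∧ (U n).Nonempty) → Pairwise (Function.onFun Disjoint U) →
    ∃ x : ℕ → X, (∀ n, x n ∈ U n) ∧ ¬ IsClosed (Set.range x)

theorem result : ∃ (G X Y : Type) (_ : Group G) (_ : TopologicalSpace G) (_ : IsTopologicalGroup G)
    (_ : TopologicalSpace X) (_ : TopologicalSpace Y), T2Space G ∧ Nontrivial G ∧ T35Space X ∧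
    T35Space Y ∧ Nonempty (Cp X G ≃ₜ* Cp Y G) ∧ Dense (Cp X G : Set (X → G)) ∧
    Dense (Cp Y G : Set (Y → G)) ∧ SelSeq X ∧ Sel X ∧ ¬ SelSeq Y ∧ ¬ Sel Y := by
  refine ⟨ℕ → Multiplicative ℝ, Unit, ℕ, inferInstance, inferInstance, inferInstance, inferInstance,
    inferInstance, inferInstance, inferInstance, inferInstance, inferInstance,
    ⟨⟨⟨⟨fun f => ⟨fun y n => f.1 () (Nat.pair y n), continuous_of_discreteTopology⟩,
      fun g => ⟨fun _ m => g.1 m.unpair.1 m.unpair.2, continuous_of_discreteTopology⟩,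
      fun f => by ext; simp, fun g => by ext; simp⟩, fun _ _ => rfl⟩,
      continuous_induced_rng.2 (continuous_pi fun y => continuous_pi fun n =>
        (continuous_apply_apply () (Nat.pair y n)).comp continuous_subtype_val),
      continuous_induced_rng.2 (continuous_pi fun _ => continuous_pi fun m =>
        (continuous_apply_apply m.unpair.1 m.unpair.2).comp continuous_subtype_val)⟩⟩,
    fun f => subset_closure continuous_of_discreteTopology,
    fun f => subset_closure continuous_of_discreteTopology,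
    fun U h => ⟨fun _ => (), fun n => (h n).2.choose_spec, id, strictMono_id, (),
      tendsto_const_nhds⟩,
    fun U h h1 => (Set.disjoint_left.1 (h1 zero_ne_one) (h 0).2.choose_spec
      (h 1).2.choose_spec).elim, fun h => ?_, fun h => ?_⟩
  · obtain ⟨x, h1, φ, h2, a, h3⟩ := h (fun n => {n}) fun n => ⟨isOpen_discrete _, n, rfl⟩
    obtain rfl : x = id := funext h1
    rw [nhds_discrete, tendsto_pure] at h3
    obtain ⟨n, h4, h5⟩ := (h3.and (h2.tendsto_atTop.eventually_gt_atTop a)).exists
    exact h5.ne' h4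
  · obtain ⟨x, -, h1⟩ := h (fun n => {n}) (fun n => ⟨isOpen_discrete _, n, rfl⟩)
      fun a b h => Set.disjoint_singleton.2 h
    exact h1 (isClosed_discrete _)

end Pool.Agent.Results.MP_c4a8f9_gt.Power
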